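import Pool.Agent.TH26.Orl.Lvl

/-!
# The part of high level of the motive is a derived invariant, in every dimension

Let `X`, `X'` be derived equivalent smooth projective varieties of dimension `n` over a field of
characteristic zero, and let `W` be their disjoint union. The structure `Corr n` records the
algebra `E` of correspondences of all degrees of `W` with itself modulo numerical equivalence,
with the Künneth projectors, an ample class, the Lefschetz star operator, the transposition, the
first Chern class and the identity `e` of `X`; `FM` is the Mukai vector of the kernel of the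
equivalence; `Chow` is the ring `CH^n(W × W)` with rational coefficients, with nil kernel over
`E` (finite dimensionality of `h(W)`).

A central idempotent `z` of `E` is the same thing as a set of simple motives, up to isomorphism
and Tate twist: `z h^i(X)` is the part of `h^i(X)` made of the simple motives in this set. If
every one of them occurs in at most two of the primitive parts `P^j` of `X` and `X'` with
`j ≡ n` modulo two, and in at most one of those with `j ≢ n` modulo two, then the `z`-parts of
`h^i(X)` and `h^i(X')` are isomorphic for all `i`, and so are the `z`-parts of the Chow motives.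
This holds for instance for all the simple motives which occur in no `P^j` with `j ≤ n - 3`
(last part of the statement), such as those of Hodge level at least `n - 2`.
-/

namespace Pool.Agent.Results.MP_5c0b30_ag.HighLevelPart

open Pool.Agent.TH26.Orl

theorem result (n : ℕ) (C : Corr n) (Φ : C.FM)
    -- a central idempotent
    (z : C.E) (hz : ∀ u, z * u = u * z) (hzz : z * z = z)
    -- at most two weights of the parity of `n`, and at most one of the other parity; or else no
    -- weight `≤ n - 3`
    (h : ((∀ j₁ j₂ j₃ : ℕ, j₁ < j₂ → j₂ < j₃ → j₃ ≤ n → j₁ % 2 = n % 2 → j₂ % 2 = n % 2 →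
          j₃ % 2 = n % 2 → C.NoPrim z j₁ ∨ C.NoPrim z j₂ ∨ C.NoPrim z j₃) ∧
        ∀ j₁ j₂ : ℕ, j₁ < j₂ → j₂ ≤ n → j₁ % 2 ≠ n % 2 → j₂ % 2 ≠ n % 2 →
          C.NoPrim z j₁ ∨ C.NoPrim z j₂) ∨
      ∀ j, j + 3 ≤ n → C.NoPrim z j) :
    -- the `z`-parts of the `h^i` are isomorphic
    (∀ i, Equ (z * C.hX i) (z * C.hX' i)) ∧
    -- the `z`-parts of the Chow motives exist and are isomorphic
    ∀ 𝒜 : C.Chow,
      (∃ p p' : 𝒜.A, p * p = p ∧ p' * p' = p' ∧ 𝒜.cl p = z * C.e ∧
        𝒜.cl p' = z * (1 - C.e)) ∧
      ∀ p p' : 𝒜.A, p * p = p → p' * p' = p' → 𝒜.cl p = z * C.e → 𝒜.cl p' = z * (1 - C.e) →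
        ∃ Z Z' : 𝒜.A, p' * Z * p = Z ∧ p * Z' * p' = Z' ∧ Z' * Z = p ∧ Z * Z' = p' := by
  have key : ∀ i, Equ (z * C.hX i) (z * C.hX' i) := by
    rcases h with ⟨h1, h2⟩ | h
    · intro i
      by_cases hp : i % 2 = n % 2
      · exact Φ.z_same hz hzz h1 i hp
      · exact Φ.z_other hz hzz h2 i hp
    · exact Φ.level hz hzz h
  refine ⟨key, fun 𝒜 => ⟨Corr.exists_parts hz hzz 𝒜, ?_⟩⟩
  intro p p' hp hp' hcp hcp'
  exact Corr.chow_z hz hzz key 𝒜 hp hp' hcp hcp'

end Pool.Agent.Results.MP_5c0b30_ag.HighLevelPart
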