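import Pool.Agent.TH133.Orl.Main

/-!
# Orlov's conjecture: one exceptional weight of each parity is harmless

`C` is the category of Chow motives over a field with rational coefficients whose morphisms are the
correspondences of all degrees, graded by the degree; an isomorphism of Chow motives is an
isomorphism of degree zero. `H` is a Weil cohomology theory and `Q` the functor to numerical motives
(again with correspondences of all degrees), which form a semisimple category by Jannsen's theorem.

If `X` and `Y` are derived equivalent smooth projective varieties of dimension `d`, then the Mukai
vectors of the kernels of the two functors are mutually inverse correspondences of mixed degrees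
(Orlov): `X` and `Y` are isomorphic in `C`. Assume that `X` and `Y` have Lefschetz decompositions
into twists of primitive parts `P i`, `i ≤ d`, and that their numerically trivial endomorphisms are
nilpotent; both hold if the motives are finite-dimensional in the sense of Kimura and satisfy the
standard conjecture of Lefschetz type.

Then Orlov's conjecture holds for `X` and `Y` if among any two different weights of the same parity
there is one whose primitive parts are numerically isomorphic. So a counterexample must have two
weights `i < j ≤ d` of the same parity with non-isomorphic primitive parts. For threefolds over the
complex numbers the weights zero (the unit motive) and one (Popa and Schnell: the Picard varieties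
are isogenous) are known, so that Orlov's conjecture holds for all such threefolds; for fourfolds
it is enough to know one of the weights two and four.
-/

open CategoryTheory

universe u v w w' u' v'

namespace Pool.Agent.Results.MP_5c0b30_ag.OneWeightPerParity

open Pool.Agent.TH133.Orl

/-- Let `X` and `Y` be isomorphic by correspondences of mixed degrees. If in each parity the
primitive parts are numerically isomorphic for all weights but one, then they are so for all
weights, and `X` and `Y` are isomorphic by correspondences of degree zero. -/
theorem result {C : Type u} [Category.{v} C] [Preadditive C] {G : HomGrading C}
    {K : Type w} [Field K] {H : Cohomology.{u, v, w, w'} G K}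
    {N : Type u'} [Category.{v'} N] [Preadditive N] [Linear ℚ N] [SemisimpleCat N]
    {Q : C ⥤ N} (hQ : IsNumerical H Q) {X Y : C} {d : ℕ}
    (LX : Lefschetz H X d) (LY : Lefschetz H Y d)
    (hX : NilpotentKernel G Q X) (hY : NilpotentKernel G Q Y) (e : X ≅ Y)
    (hS : ∀ i ≤ d, ∀ j ≤ d, i ≠ j → Even (i + j) →
      SamePrimitive Q LX LY i ∨ SamePrimitive Q LX LY j) :
    (∀ i ≤ d, SamePrimitive Q LX LY i) ∧ IsoDegZero G X Y :=
  ⟨iso_primitive hQ LX LY (Q.mapIso e) hS, exists_iso_degree_zero hQ LX LY hX hY e hS⟩

end Pool.Agent.Results.MP_5c0b30_ag.OneWeightPerParity
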