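import Pool.Agent.TH26.Orl.Crit

/-!
# Orlov's conjecture in dimension at most four

Let `X`, `X'` be derived equivalent smooth projective varieties of dimension `n` over a field of
characteristic zero, and let `W` be their disjoint union. The structure `Corr n` records the
algebra `E` of correspondences of all degrees of `W` with itself modulo numerical equivalence,
together with the Künneth projectors `π i`, an ample class `L`, the Lefschetz star operator `s`,
the transposition `t`, the first Chern class `c`, the identity `e` of `X`, and the positivity of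
the involution `u ↦ s (t u) s` (the Hodge index theorem). All this is available if `X` and `X'`
satisfy the standard conjecture of Lefschetz type (for instance if their motives are of abelian
type); for André's motivated correspondences in place of `E` all fields are theorems, for all
`X` and `X'`.

The structure `FM` is the Mukai vector of the kernel of the equivalence: an invertible
correspondence `φ` of mixed degree which is an isometry for the Mukai pairing. The structure
`Chow` is the ring `CH^n(W × W)` with rational coefficients; its field `nil` is the finite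
dimensionality of `h(W)` in the sense of Kimura and O'Sullivan.

The idea: the symmetrised Mukai form on every simple `E`-module is preserved by `φ`, classes of
degree larger than `n` are isotropic, and the Hodge index theorem computes the signature of the
form in the middle degree. This gives, besides the sum of all multiplicities of a simple motive
(for each parity), one more invariant for the parity of `n`. Two unknown weights of the parity of
`n`, and one of the other parity, are then determined.
-/

namespace Pool.Agent.Results.MP_5c0b30_ag.OrlovDimensionFour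

open Pool.Agent.TH26.Orl

theorem result (n : ℕ) (C : Corr n) (Φ : C.FM) :
    -- (1) new derived invariants in every dimension: the sum of the `h^i` over all `i ≤ n` with
    -- `i ≡ n - 2` modulo four, and over all `i` with `i ≡ n` modulo four
    (Equ (∑ i ∈ (Finset.range (n + 1)).filter (fun i => (i + 2) % 4 = n % 4), C.hX i)
        (∑ i ∈ (Finset.range (n + 1)).filter (fun i => (i + 2) % 4 = n % 4), C.hX' i) ∧
      Equ (∑ i ∈ (Finset.range (2 * n + 1)).filter (fun i => i % 4 = n % 4), C.hX i)
        (∑ i ∈ (Finset.range (2 * n + 1)).filter (fun i => i % 4 = n % 4), C.hX' i)) ∧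
    -- (2) at most two exceptional weights of the parity of `n`
    ((∀ j₁ j₂ j₃ : ℕ, j₁ < j₂ → j₂ < j₃ → j₃ ≤ n → j₁ % 2 = n % 2 → j₂ % 2 = n % 2 →
        j₃ % 2 = n % 2 → C.SamePrim j₁ ∨ C.SamePrim j₂ ∨ C.SamePrim j₃) →
      ∀ i, i % 2 = n % 2 → Equ (C.hX i) (C.hX' i)) ∧
    -- (3) at most one exceptional weight of the other parity
    ((∀ j₁ j₂ : ℕ, j₁ < j₂ → j₂ ≤ n → j₁ % 2 ≠ n % 2 → j₂ % 2 ≠ n % 2 →
        C.SamePrim j₁ ∨ C.SamePrim j₂) →
      ∀ i, i % 2 ≠ n % 2 → Equ (C.hX i) (C.hX' i)) ∧
    -- (4) in dimension at most four `h^0` and (in dimension four) `h^1` are enough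
    (n ≤ 4 → Equ (C.hX 0) (C.hX' 0) → (n = 4 → Equ (C.hX 1) (C.hX' 1)) →
      ∀ i, Equ (C.hX i) (C.hX' i)) ∧
    -- (5) in dimension five they are enough for the odd degrees, and for all degrees if one of
    -- the primitive parts of weight two and four is known
    (n = 5 → Equ (C.hX 1) (C.hX' 1) → (∀ i, Odd i → Equ (C.hX i) (C.hX' i)) ∧
      (Equ (C.hX 0) (C.hX' 0) → C.SamePrim 2 ∨ C.SamePrim 4 →
        ∀ i, Equ (C.hX i) (C.hX' i))) ∧
    -- (6) isomorphisms in all degrees give an isomorphism of Chow motives
    ((∀ i, Equ (C.hX i) (C.hX' i)) → ∀ 𝒜 : C.Chow, ∃ Z Z' : 𝒜.A,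
      (1 - 𝒜.Δ) * Z * 𝒜.Δ = Z ∧ 𝒜.Δ * Z' * (1 - 𝒜.Δ) = Z' ∧ Z' * Z = 𝒜.Δ ∧
        Z * Z' = 1 - 𝒜.Δ) := by
  have all : ∀ (h2 : ∀ i, i % 2 = n % 2 → Equ (C.hX i) (C.hX' i))
      (h1 : ∀ i, i % 2 ≠ n % 2 → Equ (C.hX i) (C.hX' i)), ∀ i, Equ (C.hX i) (C.hX' i) := by
    intro h2 h1 i
    by_cases hi : i % 2 = n % 2
    · exact h2 i hi
    · exact h1 i hi
  refine ⟨⟨?_, ?_⟩, Φ.equ_same, Φ.equ_other, ?_, ?_, fun h 𝒜 => Corr.chow_of_all h 𝒜⟩
  · have := Φ.low
    unfold Corr.P at this
    rw [Finset.mul_sum, Finset.mul_sum] at this
    exact this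
  · have := Φ.mid
    unfold Corr.P at this
    rw [Finset.mul_sum, Finset.mul_sum] at this
    exact this
  · intro hn h0 h1
    have s0 : C.SamePrim 0 := Corr.samePrim_of_equ (by omega) (by omega) h0
    apply all
    · apply Φ.equ_same
      intro j₁ j₂ j₃ a b c d e f
      have : j₁ = 0 := by omega
      rw [this]
      exact Or.inl s0
    · apply Φ.equ_other
      intro j₁ j₂ a b c d
      by_cases hj : j₁ = 0
      · rw [hj]; exact Or.inl s0
      · have h4 : n = 4 := by omega
        have hj1 : j₁ = 1 := by omega
        rw [hj1]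
        exact Or.inl (Corr.samePrim_of_equ (by omega) (by omega) (h1 h4))
  · intro hn h1
    have s1 : C.SamePrim 1 := Corr.samePrim_of_equ (by omega) (by omega) h1
    have hodd : ∀ i, i % 2 = n % 2 → Equ (C.hX i) (C.hX' i) := by
      apply Φ.equ_same
      intro j₁ j₂ j₃ a b c d e f
      have : j₁ = 1 := by omega
      rw [this]
      exact Or.inl s1
    refine ⟨fun i hi => hodd i (by rw [Nat.odd_iff] at hi; omega), ?_⟩
    intro h0 h24
    have s0 : C.SamePrim 0 := Corr.samePrim_of_equ (by omega) (by omega) h0
    apply all hodd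
    apply Φ.equ_other
    intro j₁ j₂ a b c d
    by_cases hj : j₁ = 0
    · rw [hj]; exact Or.inl s0
    · have hj1 : j₁ = 2 := by omega
      have hj2 : j₂ = 4 := by omega
      rw [hj1, hj2]
      exact h24

end Pool.Agent.Results.MP_5c0b30_ag.OrlovDimensionFour
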