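import Pool.Agent.TH26.Orl.Tate

/-!
# Fivefolds and sixfolds with algebraic second cohomology

Let `X`, `X'` be derived equivalent smooth projective varieties of dimension five or six over a
field of characteristic zero whose second cohomology is algebraic (`h^{2,0} = 0`, for instance
strict Calabi-Yau varieties), with the data `Corr`, `FM`, `Chow` of
`Pool/Agent/TH26/Orl/Defs.lean`. Then the motives of `X` and `X'` are isomorphic if and only if
the second Betti numbers agree, and if and only if the second moments of the Betti numbers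
(centered at the dimension) agree. If the first Chern classes vanish, the second moments agree
by the theorem of Libgober and Wood and the invariance of Hochschild homology: for
`p + q = i` one has `(2 p - n)^2 + (2 q - n)^2 = 2 (i - n)^2 + 2 (p - q)^2`, and the sums of the
`h^{p,q}` with `p - q` fixed are derived invariants.
-/

namespace Pool.Agent.Results.MP_5c0b30_ag.SecondBettiNumber

open Pool.Agent.TH26.Orl

/-- The `i`-th Betti number of `X`: the trace of the projector onto `h^i(X)`. -/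
def betti {n : ℕ} (C : Corr n) (i : ℕ) : ℚ := C.τ (C.hX i)

/-- The `i`-th Betti number of `X'`. -/
def betti' {n : ℕ} (C : Corr n) (i : ℕ) : ℚ := C.τ (C.hX' i)

theorem result (n : ℕ) (hn : n = 5 ∨ n = 6) (C : Corr n) (Φ : C.FM)
    -- `τ` is a trace
    (tr : ∀ u v, C.τ (u * v) = C.τ (v * u))
    -- `X` is connected: the endomorphisms of the unit motive `h^0(X)` are the rational numbers
    (unit : ∀ u, ∃ a : ℚ, C.hX 0 * u * C.hX 0 = a • C.hX 0)
    -- the second cohomologies are algebraic: the identities of `h^2(X)` and `h^2(X')` are sums of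
    -- correspondences which factor through `h^0(X)`
    (alg : C.hX 2 ∈ through (C.hX 0)) (alg' : C.hX' 2 ∈ through (C.hX 0))
    -- `h^0` and `h^1` agree, and in dimension six also `h^3`
    (h0 : Equ (C.hX 0) (C.hX' 0)) (h1 : Equ (C.hX 1) (C.hX' 1))
    (h3 : n = 6 → Equ (C.hX 3) (C.hX' 3)) :
    ((∀ i, Equ (C.hX i) (C.hX' i)) ↔ betti C 2 = betti' C 2) ∧
    ((∀ i, Equ (C.hX i) (C.hX' i)) ↔
      ∑ i ∈ Finset.range (2 * n + 1), (-1 : ℚ) ^ i * ((i : ℚ) - n) ^ 2 * betti C i =
        ∑ i ∈ Finset.range (2 * n + 1), (-1 : ℚ) ^ i * ((i : ℚ) - n) ^ 2 * betti' C i) ∧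
    (betti C 2 = betti' C 2 → ∀ 𝒜 : C.Chow, ∃ Z Z' : 𝒜.A,
      (1 - 𝒜.Δ) * Z * 𝒜.Δ = Z ∧ 𝒜.Δ * Z' * (1 - 𝒜.Δ) = Z' ∧ Z' * Z = 𝒜.Δ ∧
        Z * Z' = 1 - 𝒜.Δ) := by
  have hodd := Φ.odd_part hn h1 h3
  have main : betti C 2 = betti' C 2 → ∀ i, Equ (C.hX i) (C.hX' i) := by
    intro hb i
    have h2 := Corr.equ_two tr unit alg alg' hb
    rcases Nat.mod_two_eq_zero_or_one i with hi | hi
    · exact Φ.even_of_two (by omega) h0 (fun _ => h2) i hi
    · exact hodd i hi
  have iff1 : (∀ i, Equ (C.hX i) (C.hX' i)) ↔ betti C 2 = betti' C 2 :=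
    ⟨fun h => Corr.tau_equ tr (h 2), main⟩
  refine ⟨iff1, ?_, fun hb 𝒜 => Corr.chow_of_all (main hb) 𝒜⟩
  rw [iff1]
  have hsum : ∑ i ∈ Finset.range (2 * n + 1), (-1 : ℚ) ^ i * ((i : ℚ) - n) ^ 2 * betti C i -
      ∑ i ∈ Finset.range (2 * n + 1), (-1 : ℚ) ^ i * ((i : ℚ) - n) ^ 2 * betti' C i =
      ∑ i ∈ Finset.range (2 * n + 1), (-1 : ℚ) ^ i * ((i : ℚ) - n) ^ 2 *
        (C.τ (C.hX i) - C.τ (C.hX' i)) := by
    rw [← Finset.sum_sub_distrib]
    apply Finset.sum_congr rfl
    intro i _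
    unfold betti betti'
    ring
  have key : ∃ a : ℚ, a ≠ 0 ∧ ∑ i ∈ Finset.range (2 * n + 1), (-1 : ℚ) ^ i * ((i : ℚ) - n) ^ 2 *
      (C.τ (C.hX i) - C.τ (C.hX' i)) = a * (betti C 2 - betti' C 2) := by
    rcases hn with rfl | rfl
    · exact ⟨16, by norm_num, by simpa [betti, betti'] using Φ.moment_five tr h0 hodd⟩
    · exact ⟨32, by norm_num, by simpa [betti, betti'] using Φ.moment_six tr h0 hodd⟩
  obtain ⟨a, ha, hk⟩ := key
  rw [← hsum] at hk
  constructor
  · intro hb
    rw [hb, sub_self, mul_zero, sub_eq_zero] at hk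
    exact hk
  · intro hm
    rw [hm, sub_self] at hk
    exact sub_eq_zero.mp ((mul_eq_zero.mp hk.symm).resolve_left ha)

end Pool.Agent.Results.MP_5c0b30_ag.SecondBettiNumber
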